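import Pool.Agent.MP_c42d5f_co.H60.Main

namespace Pool.Agent.Results.MP_c42d5f_co.FourFold

open Pool.Agent.MP_c42d5f_co.H60

theorem result (k : ℕ) (hk : 1 ≤ k) (M : Set (ℤ × ℤ)) (hM : IsPolyomino M)
    (hc : M.ncard = k ^ 2)
    (hmin : IsMinimal M (Set.Ico (0 : ℤ) (2 * k) ×ˢ Set.Ico (0 : ℤ) (2 * k)))
    (F : Set (Set (ℤ × ℤ)))
    (hF : IsTiling M (Set.Ico (0 : ℤ) (2 * k) ×ˢ Set.Ico (0 : ℤ) (2 * k)) F) :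
    ∀ T ∈ F, (fun z : ℤ × ℤ => (2 * (k : ℤ) - 1 - z.2, z.1)) '' T ∈ F :=
  main k hk M hM hc hmin F hF

end Pool.Agent.Results.MP_c42d5f_co.FourFold
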